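import Mathlib
import Pool.Agent.R789.C1Curve
import Pool.Agent.Run7.h141.ND1.All

/-!
# Homeomorphisms of a surface preserving `C¹` curves are differentiable almost everywhere

Problem MP_bd3523_gt, Q2 (answer: no).  For every smooth surface `S` and every `f` in `Homeo¹(S)` the
non-differentiable set of `f` has measure zero.

Proof.  A short straight segment in a chart is part of a closed `C¹` curve (`cur`), so `f` maps it into a `C¹`
curve `γ`; the map of the segment is locally `γ ∘ s` with `s` continuous and injective, hence monotone, and so
differentiable almost everywhere (Lebesgue).  So the partial derivatives of the coordinate expression of `f`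
exist almost everywhere.  A continuous open map of the plane with partial derivatives almost everywhere is
differentiable almost everywhere; this is a theorem of Gehring and Lehto (1959), which is proved here in the
form needed: for rational approximations `p, q` of the partial derivatives the points at which the difference
quotients of length at most `1 / (n + 1)` differ from `p, q` by at most `1 / (k + 1)` form a closed set `E`;
almost every point `z₀` of `E` is a density point of `E` on the horizontal and on the vertical line through
`z₀`; the estimate holds on the boundary of many small rectangles whose sides start at points of `E` on these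
two lines, and by the maximum principle for open maps inside.

The definitions of `C¹` curves, of `Homeo¹(S)` and of the non-differentiable set are those of the starting file
for Q1 (`Pool.Agent.R789.C1Curve`).
-/

set_option autoImplicit false

namespace Pool.Agent.Results.MP_bd3523_gt.NonDiffNull

open R789.C1
open scoped Manifold ContDiff

/-- **Answer to Q2.**  Let `S` be a smooth surface and `f : S → S` a homeomorphism such that `f` and `f⁻¹` map
every `C¹` curve onto a `C¹` curve.  Then the non-differentiable set of `f` has measure zero: for every smooth
chart `e` its image under `e` is a Lebesgue null set of the plane. -/
theorem result (S : Type) [TopologicalSpace S] [T2Space S] [ChartedSpace ℂ S]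
    [IsManifold 𝓘(ℝ, ℂ) ∞ S] (f : S ≃ₜ S) (hf : Homeo1 f) (e : OpenPartialHomeomorph S ℂ)
    (he : e ∈ IsManifold.maximalAtlas 𝓘(ℝ, ℂ) ∞ S) :
    MeasureTheory.volume (e '' (e.source ∩ nonDiff f)) = 0 :=
  Run7.h141.ND1.main S f hf e he

end Pool.Agent.Results.MP_bd3523_gt.NonDiffNull
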